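import Mathlib

/-!
# Jordan rings with `2`-torsion: a perfect Jordan ring whose fixed ring has zero product

For Jordan rings, defined only by `xy = yx` and `(x²y)x = x²(yx)` with no hypothesis on `2`-torsion,
solvability of the fixed ring does not imply solvability of the ring.
-/

namespace Pool.Agent.Results.MP_8ae111_al.JordanTwoTorsion

/-- A Jordan ring: commutative, with `(x²y)x = x²(yx)`. -/
def IsJordanRing (A : Type) [NonUnitalNonAssocRing A] : Prop :=
  (∀ x y : A, x * y = y * x) ∧ ∀ x y : A, ((x * x) * y) * x = (x * x) * (y * x)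

/-- The additive subgroup generated by all products of an element of `X` and an element of `Y`. -/
def prodSpan {A : Type} [NonUnitalNonAssocRing A] (X Y : Set A) : AddSubgroup A :=
  AddSubgroup.closure {z | ∃ x ∈ X, ∃ y ∈ Y, z = x * y}

/-- The derived series started at an additive subgroup `B`; `derived B n` is the term written
`B^{(n+1)}`. -/
def derived {A : Type} [NonUnitalNonAssocRing A] (B : AddSubgroup A) : ℕ → AddSubgroup A
  | 0 => B
  | n + 1 => prodSpan (derived B n : Set A) (derived B n : Set A)

/-- Solvability of (the subring whose additive group is) `B`. -/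
def IsSolvableSub {A : Type} [NonUnitalNonAssocRing A] (B : AddSubgroup A) : Prop :=
  ∃ n, derived B n = ⊥

/-- The additive group of the fixed subring of a set of ring automorphisms. -/
def fixedSub {A : Type} [NonUnitalNonAssocRing A] (G : Subgroup (A ≃+* A)) : AddSubgroup A where
  carrier := {a | ∀ g ∈ G, g a = a}
  zero_mem' := fun g _ => map_zero g
  add_mem' := fun {a b} ha hb g hg => by rw [map_add, ha g hg, hb g hg]
  neg_mem' := fun {a} ha g hg => by rw [map_neg, ha g hg]

/-- The underlying group of the example: triples over the field with two elements. -/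
abbrev V : Type := Fin 3 → ZMod 2

/-- The cross product on triples over the field with two elements. -/
def cross (x y : V) : V := fun i => x (i + 1) * y (i + 2) + x (i + 2) * y (i + 1)

/-- The example. -/
structure Cr : Type where
  /-- the underlying triple -/
  v : V
  deriving DecidableEq

namespace Cr

/-- `Cr` is in bijection with the triples. -/
def equiv : Cr ≃ V := ⟨Cr.v, Cr.mk, fun _ => rfl, fun _ => rfl⟩

instance : Fintype Cr := Fintype.ofEquiv V equiv.symm

instance : AddCommGroup Cr := equiv.addCommGroup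

instance : Mul Cr := ⟨fun x y => ⟨cross x.v y.v⟩⟩

theorem add_v (x y : Cr) : (x + y).v = x.v + y.v := rfl
theorem zero_v : (0 : Cr).v = 0 := rfl
theorem mul_v (x y : Cr) : (x * y).v = cross x.v y.v := rfl

@[ext] theorem ext' {x y : Cr} (h : x.v = y.v) : x = y := by
  cases x; cases y; simp_all

instance : NonUnitalNonAssocRing Cr where
  left_distrib := fun x y z => by
    apply ext'; funext i
    simp only [mul_v, add_v, cross, Pi.add_apply]; ring
  right_distrib := fun x y z => by
    apply ext'; funext i
    simp only [mul_v, add_v, cross, Pi.add_apply]; ring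
  zero_mul := fun x => by
    apply ext'; funext i
    simp [mul_v, zero_v, cross]
  mul_zero := fun x => by
    apply ext'; funext i
    simp [mul_v, zero_v, cross]

theorem mul_self (x : Cr) : x * x = 0 := by
  apply ext'; funext i
  simp only [mul_v, cross, zero_v, Pi.zero_apply]
  rw [mul_comm (x.v (i + 2))]
  exact CharTwo.add_self_eq_zero _

theorem comm (x y : Cr) : x * y = y * x := by
  apply ext'; funext i
  simp only [mul_v, cross]; ring

theorem lin (x y z w : Cr) : ((x * z) * y) * w + ((z * w) * y) * x + ((w * x) * y) * z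
    = (x * z) * (y * w) + (z * w) * (y * x) + (w * x) * (y * z) := by
  apply ext'; funext i
  fin_cases i <;>
  · simp only [mul_v, add_v, cross, Pi.add_apply, Fin.isValue, Fin.mk_zero', Fin.mk_one,
      Fin.reduceFinMk, zero_add, Fin.reduceAdd]
    generalize x.v 0 = x0
    generalize x.v 1 = x1
    generalize x.v 2 = x2
    generalize y.v 0 = y0
    generalize y.v 1 = y1
    generalize y.v 2 = y2
    generalize z.v 0 = z0
    generalize z.v 1 = z1
    generalize z.v 2 = z2
    generalize w.v 0 = w0
    generalize w.v 1 = w1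
    generalize w.v 2 = w2
    revert x0 x1 x2 y0 y1 y2 z0 z1 z2 w0 w1 w2
    decide

/-- The cyclic shift of coordinates. -/
def shift : Cr ≃+* Cr where
  toFun x := ⟨fun i => x.v (i + 1)⟩
  invFun x := ⟨fun i => x.v (i - 1)⟩
  left_inv x := by apply ext'; funext i; simp
  right_inv x := by apply ext'; funext i; simp
  map_add' x y := by apply ext'; funext i; simp [add_v]
  map_mul' x y := by
    apply ext'; funext i
    simp only [mul_v, cross]
    rw [add_right_comm i 1 2]

theorem shift_cube : shift ^ 3 = 1 := by
  apply RingEquiv.ext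
  intro x
  apply ext'; funext i
  show x.v (i + 1 + 1 + 1) = x.v i
  congr 1
  revert i; decide

theorem shift_ne : shift ≠ 1 := by
  intro h
  have := congrArg (fun f : Cr ≃+* Cr => (f ⟨![0, 1, 0]⟩).v 0) h
  revert this
  decide

end Cr

open Cr

theorem order_shift : orderOf shift = 3 := by
  have : Fact (Nat.Prime 3) := ⟨Nat.prime_three⟩
  exact orderOf_eq_prime shift_cube shift_ne

theorem span_top : prodSpan ((⊤ : AddSubgroup Cr) : Set Cr) ((⊤ : AddSubgroup Cr) : Set Cr) = ⊤ := by
  rw [eq_top_iff]
  intro x _
  have e : ∀ a b : Cr, a * b ∈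
      prodSpan ((⊤ : AddSubgroup Cr) : Set Cr) ((⊤ : AddSubgroup Cr) : Set Cr) := fun a b =>
    AddSubgroup.subset_closure ⟨a, trivial, b, trivial, rfl⟩
  have key : ∃ a b c d e f : Cr, x = a * b + c * d + e * f := by
    refine ⟨⟨![0, x.v 0, 0]⟩, ⟨![0, 0, 1]⟩, ⟨![0, 0, x.v 1]⟩, ⟨![1, 0, 0]⟩, ⟨![x.v 2, 0, 0]⟩,
      ⟨![0, 1, 0]⟩, ?_⟩
    apply ext'; funext i
    fin_cases i <;> simp [add_v, mul_v, cross]
  obtain ⟨a, b, c, d, f, g, h⟩ := key
  rw [h]
  exact add_mem (add_mem (e _ _) (e _ _)) (e _ _)

/-- **Theorem.** There is a finite Jordan ring `A` (in the sense of the commutative identity and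
`(x²y)x = x²(yx)`; it satisfies `x² = 0` and `2A = 0`, and it also satisfies the full linearised
Jordan identity in four variables) and a group `G` of three automorphisms of `A`, such that `A` has no `|G|`-torsion, any two elements of the fixed subring have product `0`
(so the fixed subring is solvable), but `AA = A ≠ 0`, so `A` is not solvable. -/
theorem result : ∃ (A : Type) (_ : NonUnitalNonAssocRing A) (G : Subgroup (A ≃+* A)),
    Finite A ∧ IsJordanRing A ∧
    (∀ x y z w : A, ((x * z) * y) * w + ((z * w) * y) * x + ((w * x) * y) * z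
      = (x * z) * (y * w) + (z * w) * (y * x) + (w * x) * (y * z)) ∧
    (∀ x : A, x * x = 0) ∧ (∀ x : A, x + x = 0) ∧
    Nat.card G = 3 ∧ (∀ a : A, Nat.card G • a = 0 → a = 0) ∧
    (∀ a ∈ fixedSub G, ∀ b ∈ fixedSub G, a * b = 0) ∧
    IsSolvableSub (fixedSub G) ∧
    (∀ n, derived (⊤ : AddSubgroup A) n = ⊤) ∧ (∃ a : A, a ≠ 0) ∧
    ¬ IsSolvableSub (⊤ : AddSubgroup A) := by
  have hcard : Nat.card (Subgroup.zpowers shift) = 3 := by
    rw [Nat.card_zpowers, order_shift]
  have hadd : ∀ x : Cr, x + x = 0 := by
    intro x; apply ext'; funext i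
    exact CharTwo.add_self_eq_zero _
  have hfix : ∀ a ∈ fixedSub (Subgroup.zpowers shift), ∀ i, a.v (i + 1) = a.v i := by
    intro a ha i
    have := ha shift (Subgroup.mem_zpowers _)
    exact congrFun (congrArg Cr.v this) i
  have hprod : ∀ a ∈ fixedSub (Subgroup.zpowers shift),
      ∀ b ∈ fixedSub (Subgroup.zpowers shift), a * b = 0 := by
    intro a ha b hb
    apply ext'; funext i
    have h2 : i + 2 = (i + 1) + 1 := by revert i; decide
    simp only [mul_v, cross, zero_v, Pi.zero_apply, h2, hfix a ha, hfix b hb]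
    exact CharTwo.add_self_eq_zero _
  have hder : ∀ n, derived (⊤ : AddSubgroup Cr) n = ⊤ := by
    intro n
    induction n with
    | zero => rfl
    | succ n ih => rw [derived, ih]; exact span_top
  have hne : ∃ a : Cr, a ≠ 0 := ⟨⟨![1, 0, 0]⟩, by
    intro h
    have := congrFun (congrArg Cr.v h) 0
    revert this
    decide⟩
  refine ⟨Cr, inferInstance, Subgroup.zpowers shift, inferInstance, ⟨Cr.comm, ?_⟩, Cr.lin,
    Cr.mul_self, hadd, hcard, ?_, hprod, ⟨1, ?_⟩, hder, hne, ?_⟩
  · intro x y
    rw [Cr.mul_self, zero_mul, zero_mul, zero_mul]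
  · intro a ha
    rw [hcard, succ_nsmul, two_nsmul, hadd, zero_add] at ha
    exact ha
  · rw [eq_bot_iff]
    show prodSpan _ _ ≤ ⊥
    rw [prodSpan, AddSubgroup.closure_le]
    rintro z ⟨x, hx, y, hy, rfl⟩
    rw [hprod x hx y hy]
    exact AddSubgroup.zero_mem _
  · rintro ⟨n, hn⟩
    rw [hder n] at hn
    obtain ⟨a, ha⟩ := hne
    exact ha ((AddSubgroup.mem_bot).1 (hn ▸ (AddSubgroup.mem_top a)))

end Pool.Agent.Results.MP_8ae111_al.JordanTwoTorsion
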