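import Pool.Agent.H71.ASF.Final

/-!
# MP_8ae111_al, Q1: alternative rings with a solvable fixed subring, solvable groups

For an alternative ring `A` and a finite solvable group `G` of automorphisms of `A` such that `A`
has no `6|G|`-torsion: if the fixed subring is solvable, then `A` is solvable.
-/

namespace Pool.Agent.Results.MP_8ae111_al.SolvableGroups

universe u

/-- derived series of an additive subgroup: `derived S 0 = S` and `derived S (n+1)` is the additive
subgroup generated by all products of two elements of `derived S n` -/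
def derived {A : Type u} [NonUnitalNonAssocRing A] (S : AddSubgroup A) : ℕ → AddSubgroup A
  | 0 => S
  | n + 1 => AddSubgroup.closure {z | ∃ x ∈ derived S n, ∃ y ∈ derived S n, z = x * y}

theorem derived_eq {A : Type u} [NonUnitalNonAssocRing A] (S : AddSubgroup A) (n : ℕ) :
    derived S n = ASF.derG S n := by
  induction n with
  | zero => rfl
  | succ n ih => simp only [derived, ASF.derG, ih]

/-- the additive group of the fixed subring `{a | g a = a for all g ∈ G}` -/
def fixed {A : Type u} [NonUnitalNonAssocRing A] (G : Subgroup (RingAut A)) : AddSubgroup A where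
  carrier := {a | ∀ g ∈ G, g a = a}
  zero_mem' := fun g _ => map_zero g
  add_mem' := fun {a b} ha hb g hg => by rw [map_add, ha g hg, hb g hg]
  neg_mem' := fun {a} ha g hg => by rw [map_neg, ha g hg]

theorem result (A : Type u) [NonUnitalNonAssocRing A]
    (hleft : ∀ x y : A, x * (x * y) = (x * x) * y)
    (hright : ∀ x y : A, (y * x) * x = y * (x * x))
    (G : Subgroup (RingAut A)) [Finite G] [Group.IsSolvable G]
    (htors : ∀ a : A, (6 * Nat.card G) • a = 0 → a = 0)
    (hfix : ∃ n, derived (fixed G) n = ⊥) :
    ∃ n, derived (⊤ : AddSubgroup A) n = ⊥ := by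
  have : ASF.Alt A := ⟨hleft, hright⟩
  obtain ⟨n, hn⟩ := hfix
  obtain ⟨m, hm⟩ := ASF.gso_all.{u, u} G A G.subtype htors (fixed G)
    (fun x => ⟨fun h g => h g.1 g.2, fun h g hg => h ⟨g, hg⟩⟩) ⟨n, by rw [← derived_eq]; exact hn⟩
  exact ⟨m, by rw [derived_eq]; exact hm⟩

end Pool.Agent.Results.MP_8ae111_al.SolvableGroups
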